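import Pool.Agent.L7h47.DF.Stm

/-!
# Project DF, part SSQ: the function with many equal values
-/

set_option autoImplicit false

namespace Pool.Agent.L7h53.DF

open Pool.Agent.L7h47.DF

theorem sq_fib {α β : Type} [Fintype β] [DecidableEq β] (s : Finset α) (f : α → β) :
    ∑ x : β, (s.filter fun a => f a = x).card * (s.filter fun a => f a = x).card =
      ∑ a ∈ s, ∑ b ∈ s, if f a = f b then 1 else 0 := by
  have h : ∀ x : β, (s.filter fun a => f a = x).card * (s.filter fun a => f a = x).card =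
      ∑ a ∈ s, ∑ b ∈ s, (if f a = x then 1 else 0) * (if f b = x then 1 else 0) := by
    intro x
    rw [Finset.card_filter, Finset.sum_mul_sum]
  rw [Finset.sum_congr rfl fun x _ => h x, Finset.sum_comm]
  refine Finset.sum_congr rfl fun a _ => ?_
  rw [Finset.sum_comm]
  refine Finset.sum_congr rfl fun b _ => ?_
  rw [Finset.sum_eq_single (f a)]
  · by_cases hab : f a = f b
    · simp [hab]
    · have hba : ¬ f b = f a := fun h => hab h.symm
      simp [hab, hba]
  · intro x _ hx
    have : ¬ f a = x := fun h => hx h.symm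
    simp [this]
  · intro hx
    exact absurd (Finset.mem_univ _) hx

theorem cnt_zero {G : Type} [AddCommGroup G] [DecidableEq G] (D : Finset G) :
    ((D ×ˢ D).filter fun e => e.1 - e.2 = 0).card = D.card := by
  rw [Finset.card_filter, Finset.sum_product]
  have : ∀ d ∈ D, ∑ e ∈ D, (if (d, e).1 - (d, e).2 = 0 then 1 else 0) = 1 := by
    intro d hd
    rw [Finset.sum_eq_single d]
    · simp
    · intro e _ hne
      have : ¬ d - e = 0 := fun h => hne (sub_eq_zero.1 h).symm
      simp [this]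
    · intro h
      exact absurd hd h
  rw [Finset.sum_congr rfl this]
  simp

theorem sumsq {G : Type} [AddCommGroup G] [Fintype G] [DecidableEq G] (D : Finset G) (p : ℕ) :
    ∑ x : G, ((D ×ˢ D).filter fun e => p • e.1 - e.2 = x).card *
        ((D ×ˢ D).filter fun e => p • e.1 - e.2 = x).card =
      ∑ d ∈ D, ∑ d' ∈ D, ((D ×ˢ D).filter fun e => e.1 - e.2 = p • (d - d')).card := by
  rw [sq_fib (D ×ˢ D) (fun e : G × G => p • e.1 - e.2), Finset.sum_product]
  refine Finset.sum_congr rfl fun d _ => ?_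
  have h1 : ∀ e ∈ D, ∑ b ∈ D ×ˢ D, (if p • (d, e).1 - (d, e).2 = p • b.1 - b.2 then 1 else 0) =
      ∑ d' ∈ D, ∑ e' ∈ D, (if p • d - e = p • d' - e' then 1 else 0) := by
    intro e _
    rw [Finset.sum_product]
  rw [Finset.sum_congr rfl h1, Finset.sum_comm]
  refine Finset.sum_congr rfl fun d' _ => ?_
  rw [Finset.card_filter, Finset.sum_product]
  refine Finset.sum_congr rfl fun e _ => ?_
  refine Finset.sum_congr rfl fun e' _ => ?_
  refine if_congr ?_ rfl rfl
  change p • d - e = p • d' - e' ↔ e - e' = p • (d - d')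
  rw [smul_sub]
  constructor
  · intro h
    have := sub_eq_sub_iff_sub_eq_sub.1 h
    exact this.symm
  · intro h
    exact sub_eq_sub_iff_sub_eq_sub.2 h.symm

theorem one_place {β : Type} [Fintype β] [DecidableEq β] (S : β → ℕ)
    (h : (∑ x, S x) * (∑ x, S x) = ∑ x, S x * S x) (h0 : ∑ x, S x ≠ 0) :
    ∃ g0, S g0 = ∑ x, S x ∧ ∀ g, g ≠ g0 → S g = 0 := by
  obtain ⟨g0, -, hg0⟩ := Finset.exists_ne_zero_of_sum_ne_zero h0
  have hle : ∀ x ∈ Finset.univ, S x * S x ≤ S x * ∑ y, S y := fun x _ =>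
    Nat.mul_le_mul_left _ (Finset.single_le_sum (fun _ _ => Nat.zero_le _) (Finset.mem_univ x))
  have heq : ∑ x, S x * S x = ∑ x, S x * ∑ y, S y := by
    rw [← h, Finset.sum_mul]
  have h1 := (Finset.sum_eq_sum_iff_of_le hle).1 heq g0 (Finset.mem_univ _)
  have h2 : S g0 = ∑ x, S x := Nat.eq_of_mul_eq_mul_left (Nat.pos_of_ne_zero hg0) h1
  refine ⟨g0, h2, fun g hg => ?_⟩
  have h3 := Finset.add_sum_erase Finset.univ S (Finset.mem_univ g0)
  have h4 : ∑ x ∈ Finset.univ.erase g0, S x = 0 := by omega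
  exact (Finset.sum_eq_zero_iff.1 h4) g (Finset.mem_erase.2 ⟨hg, Finset.mem_univ _⟩)

theorem s_SSQ (hPAR : S_PAR) : S_SSQ := by
  intro G _ _ _ k lam D hD p hp hlp hlk hcop hF
  have hpar := hPAR G k lam D hD
  obtain ⟨hcard, hdiff⟩ := hD
  set v := Fintype.card G with hv
  have hv1 : 1 ≤ v := Fintype.card_pos
  set F : G → ℕ := fun g => ((D ×ˢ D).filter fun e => p • e.1 - e.2 = g).card with hFdef
  have hp0 : 0 < p := hp.pos
  -- the quotients
  set S : G → ℕ := fun g => F g / p with hSdef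
  have hFS : ∀ g, F g = lam + p * S g := by
    intro g
    have h1 : F g % p = lam := by
      have := hF g
      unfold Nat.ModEq at this
      rw [Nat.mod_eq_of_lt hlp] at this
      exact this
    have h2 := Nat.mod_add_div (F g) p
    rw [h1] at h2
    exact h2.symm
  have hsum : ∑ g, F g = k * k := by
    have h1 : (D ×ˢ D).card = ∑ g : G, F g := by
      exact Finset.card_eq_sum_card_fiberwise (fun x _ => Finset.mem_coe.2 (Finset.mem_univ _))
    rw [← h1, Finset.card_product, hcard]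
  have hsumS : lam * v + p * ∑ g, S g = k * k := by
    rw [← hsum, Finset.sum_congr rfl fun g _ => hFS g, Finset.sum_add_distrib, Finset.mul_sum]
    simp [hv, mul_comm]
  have hpS : (p : ℤ) * ∑ g, (S g : ℤ) = (k : ℤ) - lam := by
    have e1 : (lam : ℤ) * v + p * ∑ g, (S g : ℤ) = k * k := by exact_mod_cast hsumS
    have e2 : (k : ℤ) * k = k + lam * ((v : ℤ) - 1) := by
      have : ((v - 1 : ℕ) : ℤ) = (v : ℤ) - 1 := by
        rw [Nat.cast_sub hv1]
        simp
      rw [← this]
      exact_mod_cast hpar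
    linarith
  -- the second moment
  have hA : ∀ d ∈ D, ∀ d' ∈ D, (((D ×ˢ D).filter fun e => e.1 - e.2 = p • (d - d')).card : ℤ) =
      lam + (if d = d' then (k : ℤ) - lam else 0) := by
    intro d _ d' _
    by_cases hdd : d = d'
    · rw [if_pos hdd, hdd, sub_self, smul_zero, cnt_zero, hcard]
      ring
    · rw [if_neg hdd, add_zero]
      have hne : p • (d - d') ≠ 0 := by
        intro h0
        have hc : (Nat.card G).Coprime p := by
          rw [Nat.card_eq_fintype_card]
          exact hcop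
        have h1 : (nsmulCoprime hc) (d - d') = (nsmulCoprime hc) 0 := by
          change p • (d - d') = p • (0 : G)
          rw [h0, smul_zero]
        exact hdd (sub_eq_zero.1 ((nsmulCoprime hc).injective h1))
      exact_mod_cast hdiff _ hne
  have hsq : ∑ g, (F g : ℤ) * F g = k * k * lam + k * ((k : ℤ) - lam) := by
    have h1 := sumsq D p
    have h2 : ∑ g, (F g : ℤ) * F g =
        ∑ d ∈ D, ∑ d' ∈ D, (((D ×ˢ D).filter fun e => e.1 - e.2 = p • (d - d')).card : ℤ) := by
      exact_mod_cast h1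
    rw [h2, Finset.sum_congr rfl fun d hd => Finset.sum_congr rfl fun d' hd' => hA d hd d' hd']
    have h3 : ∀ d ∈ D, ∑ d' ∈ D, ((lam : ℤ) + (if d = d' then (k : ℤ) - lam else 0)) =
        k * lam + ((k : ℤ) - lam) := by
      intro d hd
      rw [Finset.sum_add_distrib, Finset.sum_ite_eq, if_pos hd]
      simp [hcard]
    rw [Finset.sum_congr rfl h3]
    simp [hcard]
    ring
  have hsq2 : ∑ g, (F g : ℤ) * F g = (lam : ℤ) * lam * v + 2 * lam * (p * ∑ g, (S g : ℤ)) +
      p * p * ∑ g, (S g : ℤ) * S g := by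
    have h1 : ∀ g : G, (F g : ℤ) * F g = (lam : ℤ) * lam + 2 * lam * p * (S g : ℤ) +
        p * p * ((S g : ℤ) * S g) := by
      intro g
      rw [hFS g]
      push_cast
      ring
    have a1 : ∑ g, 2 * (lam : ℤ) * p * (S g : ℤ) = 2 * lam * p * ∑ g, (S g : ℤ) :=
      (Finset.mul_sum _ _ _).symm
    have a2 : ∑ g, (p : ℤ) * p * ((S g : ℤ) * S g) = p * p * ∑ g, (S g : ℤ) * S g :=
      (Finset.mul_sum _ _ _).symm
    have a3 : ∑ _g : G, (lam : ℤ) * lam = v * (lam * lam) := by
      simp [hv]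
    rw [Finset.sum_congr rfl fun g _ => h1 g, Finset.sum_add_distrib, Finset.sum_add_distrib,
      a1, a2, a3]
    ring
  have hlv : (lam : ℤ) * v = k * k - k + lam := by
    have e2 : (k : ℤ) * k = k + lam * ((v : ℤ) - 1) := by
      have : ((v - 1 : ℕ) : ℤ) = (v : ℤ) - 1 := by
        rw [Nat.cast_sub hv1]
        simp
      rw [← this]
      exact_mod_cast hpar
    linarith
  have hfin : (p : ℤ) * p * ∑ g, (S g : ℤ) * S g = p * p * ((∑ g, (S g : ℤ)) * ∑ g, (S g : ℤ)) := by
    have e1 : (p : ℤ) * p * ((∑ g, (S g : ℤ)) * ∑ g, (S g : ℤ)) = ((k : ℤ) - lam) * (k - lam) := by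
      rw [← hpS]
      ring
    rw [e1]
    rw [hsq, hpS] at hsq2
    linear_combination (-1 : ℤ) * hsq2 - lam * hlv
  have hpp : (p : ℤ) * p ≠ 0 := by positivity
  have hfin2 : ∑ g, (S g : ℤ) * S g = (∑ g, (S g : ℤ)) * ∑ g, (S g : ℤ) :=
    mul_left_cancel₀ hpp hfin
  have hfin3 : (∑ g, S g) * (∑ g, S g) = ∑ g, S g * S g := by exact_mod_cast hfin2.symm
  have hS0 : ∑ g, S g ≠ 0 := by
    intro h0
    have h1 : (∑ g, (S g : ℤ)) = 0 := by exact_mod_cast h0
    rw [h1, mul_zero] at hpS
    omega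
  obtain ⟨g0, hg0, hg⟩ := one_place S hfin3 hS0
  refine ⟨g0, fun g => ?_⟩
  change F g = _
  rw [hFS g]
  by_cases hgg : g = g0
  · rw [if_pos hgg, hgg, hg0]
    have h1 : ((p * ∑ x, S x : ℕ) : ℤ) = ((k - lam : ℕ) : ℤ) := by
      rw [Nat.cast_sub hlk.le]
      push_cast
      exact hpS
    have h2 : p * ∑ x, S x = k - lam := by exact_mod_cast h1
    rw [h2]
  · rw [if_neg hgg, hg g hgg, mul_zero]

end Pool.Agent.L7h53.DF
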